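import Mathlib

set_option autoImplicit false

/-!
# The dual Lüneburg–Tits planes

`K` is a field of characteristic two with a ring endomorphism `τ` satisfying `τ (τ x) = x ^ 2`
(a Tits endomorphism).  We build the translation plane of order `|K| ^ 2` from the
Lüneburg spread and look at its dual.
-/

namespace Pool.Agent.Y438

/-- Lines of the translation plane given by a family of slope maps. -/
inductive Ln (ι A : Type) : Type
  | inf : Ln ι A
  | aff : ι → A → Ln ι A

/-- Points of the translation plane. -/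
inductive Pt (ι V : Type) : Type
  | aff : V → Pt ι V
  | inf : ι → Pt ι V

/-- Incidence: the line `p` passes through the point `m`. -/
def inc {ι V A : Type} (φ : ι → V → A) : Ln ι A → Pt ι V → Prop
  | .inf, .aff _ => False
  | .inf, .inf _ => True
  | .aff c i, .aff v => φ c v = i
  | .aff c _, .inf d => c = d

instance (ι A : Type) [Finite ι] [Finite A] : Finite (Ln ι A) :=
  Finite.of_injective
    (fun p : Ln ι A => match p with
      | .inf => (none : Option (ι × A))
      | .aff c i => some (c, i))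
    (by
      intro p q h
      cases p <;> cases q <;> simp_all)

instance (ι V : Type) [Finite ι] [Finite V] : Finite (Pt ι V) :=
  Finite.of_injective
    (fun p : Pt ι V => match p with
      | .aff v => (Sum.inl v : V ⊕ ι)
      | .inf c => Sum.inr c)
    (by
      intro p q h
      cases p <;> cases q <;> simp_all)

/-- The projective plane (with `Ln` as points, `Pt` as lines) attached to slope maps. -/
noncomputable def planeInst {ι V A : Type} (φ : ι → V → A)
    (h1 : ∀ c d, c ≠ d → ∀ i j, ∃ v, φ c v = i ∧ φ d v = j)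
    (h2 : ∀ c d, c ≠ d → ∀ v w, φ c v = φ c w → φ d v = φ d w → v = w)
    (h3 : ∀ v w, v ≠ w → ∃ c, φ c v = φ c w)
    (c₁ c₂ c₃ : ι) (h12 : c₁ ≠ c₂) (h13 : c₁ ≠ c₃) (h23 : c₂ ≠ c₃)
    (v₀ : V) (a₀ : A) (ha : φ c₁ v₀ ≠ a₀) :
    @Configuration.ProjectivePlane (Ln ι A) (Pt ι V) ⟨fun m p => inc φ p m⟩ := by
  classical
  letI : Membership (Ln ι A) (Pt ι V) := ⟨fun m p => inc φ p m⟩
  have hmem : ∀ (p : Ln ι A) (m : Pt ι V), p ∈ m ↔ inc φ p m := fun _ _ => Iff.rfl
  have hne : ∀ c : ι, ∃ d, d ≠ c := by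
    intro c
    by_cases h : c₁ = c
    · exact ⟨c₂, by rw [← h]; exact h12.symm⟩
    · exact ⟨c₁, h⟩
  have key : ∀ {p₁ p₂ : Ln ι A} {l₁ l₂ : Pt ι V}, p₁ ∈ l₁ → p₂ ∈ l₁ → p₁ ∈ l₂ → p₂ ∈ l₂ →
      p₁ = p₂ ∨ l₁ = l₂ := by
    intro p₁ p₂ l₁ l₂ a b c d
    rw [hmem] at a b c d
    rcases p₁ with _ | ⟨e, i⟩ <;> rcases p₂ with _ | ⟨f, j⟩ <;> rcases l₁ with v | g <;>
      rcases l₂ with w | k <;> simp only [inc] at a b c d
    · exact Or.inl rfl
    · exact Or.inr (by rw [← b, ← d])
    · exact Or.inr (by rw [← a, ← c])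
    · by_cases hef : e = f
      · subst hef
        exact Or.inl (by rw [← a, ← b])
      · exact Or.inr (by rw [h2 e f hef v w (by rw [a, c]) (by rw [b, d])])
    · subst c; subst d
      exact Or.inl (by rw [← a, ← b])
    · subst a; subst b
      exact Or.inl (by rw [← c, ← d])
    · exact Or.inr (by rw [← a, ← c])
  have mkP : ∀ {l₁ l₂ : Pt ι V}, l₁ ≠ l₂ → ∃ p : Ln ι A, p ∈ l₁ ∧ p ∈ l₂ := by
    intro l₁ l₂ h
    rcases l₁ with v | g <;> rcases l₂ with w | k
    · obtain ⟨c, hc⟩ := h3 v w (fun hvw => h (by rw [hvw]))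
      exact ⟨.aff c (φ c v), rfl, hc.symm⟩
    · exact ⟨.aff k (φ k v), rfl, rfl⟩
    · exact ⟨.aff g (φ g w), rfl, rfl⟩
    · exact ⟨.inf, trivial, trivial⟩
  have mkL : ∀ {p₁ p₂ : Ln ι A}, p₁ ≠ p₂ → ∃ l : Pt ι V, p₁ ∈ l ∧ p₂ ∈ l := by
    intro p₁ p₂ h
    rcases p₁ with _ | ⟨e, i⟩ <;> rcases p₂ with _ | ⟨f, j⟩
    · exact absurd rfl h
    · exact ⟨.inf f, trivial, rfl⟩
    · exact ⟨.inf e, rfl, trivial⟩
    · by_cases hef : e = f
      · exact ⟨.inf e, rfl, hef.symm⟩
      · obtain ⟨v, hv, hv'⟩ := h1 e f hef i j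
        exact ⟨.aff v, hv, hv'⟩
  exact
    { exists_point := by
        intro l
        rcases l with v | c
        · exact ⟨.inf, fun h => h⟩
        · obtain ⟨d, hd⟩ := hne c
          exact ⟨.aff d a₀, fun h => hd h⟩
      exists_line := by
        intro p
        rcases p with _ | ⟨c, i⟩
        · exact ⟨.aff v₀, fun h => h⟩
        · obtain ⟨d, hd⟩ := hne c
          exact ⟨.inf d, fun h => hd (Eq.symm h)⟩
      eq_or_eq := key
      mkPoint := fun h => Classical.choose (mkP h)
      mkPoint_ax := fun h => Classical.choose_spec (mkP h)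
      mkLine := fun h => Classical.choose (mkL h)
      mkLine_ax := fun h => Classical.choose_spec (mkL h)
      exists_config := by
        refine ⟨.aff c₃ a₀, .inf, .aff c₁ a₀, .aff v₀, .inf c₁, .inf c₂, ?_, ?_, ?_, ?_, ?_, ?_, ?_, ?_⟩
        · exact fun h => h13 (Eq.symm h)
        · exact fun h => h23 (Eq.symm h)
        · exact fun h => h
        · trivial
        · trivial
        · exact ha
        · rfl
        · exact fun h => h12 h }

/-- A pair of incidence preserving maps, one of them a permutation, is a collineation. -/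
theorem exists_coll {ι V A : Type} (φ : ι → V → A)
    (h1 : ∀ c d, c ≠ d → ∀ i j, ∃ v, φ c v = i ∧ φ d v = j)
    (h2 : ∀ c d, c ≠ d → ∀ v w, φ c v = φ c w → φ d v = φ d w → v = w)
    (c₁ c₂ : ι) (h12 : c₁ ≠ c₂)
    (a : Equiv.Perm (Pt ι V)) (f f' : Ln ι A → Ln ι A)
    (hf : ∀ p m, inc φ p m → inc φ (f p) (a m))
    (hf' : ∀ p m, inc φ p m → inc φ (f' p) (a.symm m)) :
    ∃ g : Equiv.Perm (Ln ι A) × Equiv.Perm (Pt ι V),
      (∀ p m, inc φ p m ↔ inc φ (g.1 p) (g.2 m)) ∧ (∀ p, g.1 p = f p) ∧ g.2 = a := by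
  classical
  have huniq : ∀ p q : Ln ι A, (∀ m, inc φ p m → inc φ q m) → q = p := by
    intro p q h
    rcases p with _ | ⟨c, i⟩
    · rcases q with _ | ⟨d, j⟩
      · rfl
      · have e1 : d = c₁ := h (.inf c₁) trivial
        have e2 : d = c₂ := h (.inf c₂) trivial
        exact absurd (e1.symm.trans e2) h12
    · obtain ⟨d, hd⟩ : ∃ d, d ≠ c := by
        by_cases h : c₁ = c
        · exact ⟨c₂, by rw [← h]; exact h12.symm⟩
        · exact ⟨c₁, h⟩
      obtain ⟨v, hv, _⟩ := h1 c d hd.symm i i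
      rcases q with _ | ⟨e, j⟩
      · exact (h (.aff v) hv).elim
      · have e1 : e = c := h (.inf c) rfl
        have e2 : φ e v = j := h (.aff v) hv
        rw [← e2, e1, hv]
  have hl : ∀ p, f' (f p) = p := by
    intro p
    apply huniq
    intro m hm
    have := hf' _ _ (hf p m hm)
    simpa using this
  have hr : ∀ p, f (f' p) = p := by
    intro p
    apply huniq
    intro m hm
    have := hf _ _ (hf' p m hm)
    simpa using this
  refine ⟨(⟨f, f', hl, hr⟩, a), ?_, fun _ => rfl, rfl⟩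
  intro p m
  constructor
  · exact hf p m
  · intro h
    have := hf' _ _ h
    simpa [hl] using this

end Pool.Agent.Y438
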