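import Mathlib
import Pool.Agent.Y438.Tits

set_option autoImplicit false

/-!
# The Lüneburg spread over a field of characteristic two with a Tits endomorphism
-/

namespace Pool.Agent.Y438

section field

variable {K : Type} [Field K] (τ : K →+* K)

/-- The form of the Tits ovoid. -/
def zf (x y : K) : K := x * y + τ x * x ^ 2 + τ y

/-- The spread matrices, as maps. -/
def Mf (c q : K × K) : K × K :=
  (τ c.2 * q.1 + (c.2 + τ c.1 * c.1) * q.2, (c.2 + τ c.1 * c.1) * q.1 + τ c.1 * q.2)

/-- Slope maps of the Lüneburg plane. -/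
def phi : Option (K × K) → (K × K) × (K × K) → K × K
  | none, v => v.2
  | some c, v => v.1 + Mf τ c v.2

theorem z_ne (hτ : ∀ x, τ (τ x) = x ^ 2) (h2 : (2 : K) = 0) (x y : K)
    (h : zf τ x y = 0) : x = 0 ∧ y = 0 := by
  unfold zf at h
  by_cases hx : x = 0
  · subst hx
    simp at h
    exact ⟨rfl, h⟩
  · exfalso
    have hX : τ x ≠ 0 := by simpa using hx
    obtain ⟨u, hu⟩ : ∃ u, y = τ x * x * u := ⟨y / (τ x * x), by field_simp⟩
    subst hu
    simp only [map_mul, hτ] at h
    have h' : x ^2 * τ x * (u + 1 + τ u) = 0 := by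
      linear_combination h
    have h3 : u + 1 + τ u = 0 := by
      rcases mul_eq_zero.1 h' with h4 | h4
      · exfalso
        rcases mul_eq_zero.1 h4 with h5 | h5
        · exact hx (by simpa using h5)
        · exact hX h5
      · exact h4
    have h4 : τ u + 1 + u^2 = 0 := by
      have := congrArg τ h3
      simpa [hτ] using this
    have h5 : u * (u - 1) = 0 := by
      linear_combination h4 - h3 + (0:K) * h2
    rcases mul_eq_zero.1 h5 with h6 | h6
    · subst h6
      simp at h3
    · have h7 : u = 1 := by linear_combination h6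
      subst h7
      simp at h3
      exact one_ne_zero (by linear_combination h3 - h2)

/-- The difference of two spread matrices has nonzero determinant. -/
theorem det_ne (hτ : ∀ x, τ (τ x) = x ^ 2) (h2 : (2 : K) = 0) (c d : K × K) (h : c ≠ d) :
    (τ c.2 + τ d.2) * (τ c.1 + τ d.1) +
      ((c.2 + τ c.1 * c.1) + (d.2 + τ d.1 * d.1)) ^ 2 ≠ 0 := by
  obtain ⟨x, y⟩ := c
  obtain ⟨a, b⟩ := d
  simp only
  intro h0
  have h1 : τ (zf τ (x + a) (y + b + τ a * (x + a))) = 0 := by
    rw [← h0]
    unfold zf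
    simp only [map_add, map_mul, map_pow, hτ]
    grind
  have h3 : zf τ (x + a) (y + b + τ a * (x + a)) = 0 := by simpa using h1
  obtain ⟨h4, h5⟩ := z_ne τ hτ h2 _ _ h3
  apply h
  rw [h4, mul_zero, add_zero] at h5
  have e1 : x = a := by linear_combination h4 - a * h2
  have e2 : y = b := by linear_combination h5 - b * h2
  rw [e1, e2]

/-- Linear algebra: the difference of two spread matrices is injective. -/
theorem Mf_inj (hτ : ∀ x, τ (τ x) = x ^ 2) (h2 : (2 : K) = 0) (c d : K × K) (h : c ≠ d)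
    (q : K × K) (hq : Mf τ c q + Mf τ d q = 0) : q = 0 := by
  have hd := det_ne τ hτ h2 c d h
  obtain ⟨x, y⟩ := c
  obtain ⟨a, b⟩ := d
  obtain ⟨q1, q2⟩ := q
  unfold Mf at hq
  simp only [Prod.mk_add_mk, Prod.mk_eq_zero] at hq
  simp only at hd
  obtain ⟨e1, e2⟩ := hq
  have f1 : ((τ y + τ b) * (τ x + τ a) + ((y + τ x * x) + (b + τ a * a)) ^ 2) * q1 = 0 := by
    linear_combination (τ x + τ a) * e1 - ((y + τ x * x) + (b + τ a * a)) * e2
      + ((y + τ x * x) + (b + τ a * a)) ^ 2 * q1 * h2
  have f2 : ((τ y + τ b) * (τ x + τ a) + ((y + τ x * x) + (b + τ a * a)) ^ 2) * q2 = 0 := by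
    linear_combination (τ y + τ b) * e2 - ((y + τ x * x) + (b + τ a * a)) * e1
      + ((y + τ x * x) + (b + τ a * a)) ^ 2 * q2 * h2
  have g1 : q1 = 0 := (mul_eq_zero.1 f1).resolve_left hd
  have g2 : q2 = 0 := (mul_eq_zero.1 f2).resolve_left hd
  rw [g1, g2]
  rfl

theorem add_self2 (h2 : (2 : K) = 0) (x : K × K) : x + x = 0 := by
  ext
  · simp only [Prod.fst_add, Prod.fst_zero]
    linear_combination x.1 * h2
  · simp only [Prod.snd_add, Prod.snd_zero]
    linear_combination x.2 * h2

theorem Mf_add (c q r : K × K) : Mf τ c (q + r) = Mf τ c q + Mf τ c r := by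
  unfold Mf
  ext
  · simp only [Prod.fst_add, Prod.snd_add]; ring
  · simp only [Prod.fst_add, Prod.snd_add]; ring

/-- Two slopes determine the point. -/
theorem phi_h2 (hτ : ∀ x, τ (τ x) = x ^ 2) (h2 : (2 : K) = 0) (c d : Option (K × K)) (h : c ≠ d)
    (v w : (K × K) × (K × K)) (hc : phi τ c v = phi τ c w) (hd : phi τ d v = phi τ d w) :
    v = w := by
  have case1 : ∀ d : K × K, v.2 = w.2 → phi τ (some d) v = phi τ (some d) w → v = w := by
    intro d e1 e2
    simp only [phi, e1] at e2
    exact Prod.ext (add_right_cancel e2) e1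
  rcases c with _ | c <;> rcases d with _ | d
  · exact absurd rfl h
  · exact case1 d hc hd
  · exact case1 c hd hc
  · simp only [phi] at hc hd
    have hcd : c ≠ d := fun e => h (by rw [e])
    have hz : v.2 - w.2 = 0 := by
      apply Mf_inj τ hτ h2 c d hcd
      have e1 : Mf τ c (v.2 - w.2) = w.1 - v.1 := by
        have := Mf_add τ c (v.2 - w.2) w.2
        rw [sub_add_cancel] at this
        rw [this] at hc
        have h5 : v.1 + Mf τ c (v.2 - w.2) = w.1 := add_right_cancel (by rw [← hc]; abel)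
        rw [← h5]; abel
      have e2 : Mf τ d (v.2 - w.2) = w.1 - v.1 := by
        have := Mf_add τ d (v.2 - w.2) w.2
        rw [sub_add_cancel] at this
        rw [this] at hd
        have h5 : v.1 + Mf τ d (v.2 - w.2) = w.1 := add_right_cancel (by rw [← hd]; abel)
        rw [← h5]; abel
      rw [e1, e2]
      exact add_self2 h2 _
    exact case1 c (sub_eq_zero.1 hz) (by simpa only [phi] using hc)

theorem phi_h1 [Finite K] (hτ : ∀ x, τ (τ x) = x ^ 2) (h2 : (2 : K) = 0) (c d : Option (K × K))
    (h : c ≠ d) (i j : K × K) : ∃ v, phi τ c v = i ∧ phi τ d v = j := by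
  have hinj : Function.Injective (fun v : (K × K) × (K × K) => (phi τ c v, phi τ d v)) := by
    intro v w hvw
    simp only [Prod.mk.injEq] at hvw
    exact phi_h2 τ hτ h2 c d h v w hvw.1 hvw.2
  obtain ⟨v, hv⟩ := Finite.surjective_of_injective hinj (i, j)
  simp only [Prod.mk.injEq] at hv
  exact ⟨v, hv.1, hv.2⟩

theorem phi_h3 [Finite K] (hτ : ∀ x, τ (τ x) = x ^ 2) (h2 : (2 : K) = 0)
    (v w : (K × K) × (K × K)) : ∃ c, phi τ c v = phi τ c w := by
  by_cases hq : v.2 - w.2 = 0
  · exact ⟨none, sub_eq_zero.1 hq⟩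
  · have hinj : Function.Injective (fun c : K × K => Mf τ c (v.2 - w.2)) := by
      intro c d hcd
      by_contra hne
      apply hq
      apply Mf_inj τ hτ h2 c d hne
      simp only at hcd
      rw [hcd]
      exact add_self2 h2 _
    obtain ⟨c, hc⟩ := Finite.surjective_of_injective hinj (w.1 - v.1)
    refine ⟨some c, ?_⟩
    simp only [phi]
    have := Mf_add τ c (v.2 - w.2) w.2
    rw [sub_add_cancel] at this
    simp only at hc
    rw [this, hc]
    abel

/-- The dual Lüneburg plane. -/
@[reducible] noncomputable def luneburg [Finite K] (hτ : ∀ x, τ (τ x) = x ^ 2)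
    (h2 : (2 : K) = 0) :
    @Configuration.ProjectivePlane (Ln (Option (K × K)) (K × K)) (Pt (Option (K × K)) ((K × K) × (K × K)))
      ⟨fun m p => inc (phi τ) p m⟩ :=
  planeInst (phi τ) (phi_h1 τ hτ h2) (phi_h2 τ hτ h2) (fun v w _ => phi_h3 τ hτ h2 v w)
    none (some (0, 0)) (some (1, 0)) (by simp) (by simp) (by simp) 0 (1, 0) (by
      intro h
      have : (0 : K × K) = (1, 0) := h
      have h3 := congrArg Prod.fst this
      simp at h3)

end field

end Pool.Agent.Y438
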