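import Mathlib
import Pool.Agent.Y438.Tits2

set_option autoImplicit false

/-!
# Collineations of the Lüneburg plane fixing the origin
-/

namespace Pool.Agent.Y438

section field

variable {K : Type} [Field K] (τ : K →+* K)

/-- The action of the Suzuki 2-group on slopes. -/
def tI (a b : K) : Option (K × K) → Option (K × K)
  | none => none
  | some c => some (c.1 + a, c.2 + b + τ a * c.1)

/-- The action of the Suzuki 2-group on vectors. -/
def tV (a b : K) (v : (K × K) × (K × K)) : (K × K) × (K × K) :=
  ((v.1.1 + zf τ a b * v.2.1 + (b + τ a * a) * v.2.2 + a * v.1.2,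
    v.1.2 + b * v.2.1 + τ a * v.2.2), (v.2.1, v.2.2 + a * v.2.1))

/-- The action of the Suzuki 2-group on points. -/
def tP (a b : K) : Pt (Option (K × K)) ((K × K) × (K × K)) →
    Pt (Option (K × K)) ((K × K) × (K × K))
  | .aff v => .aff (tV τ a b v)
  | .inf c => .inf (tI τ a b c)

/-- The action of the Suzuki 2-group on lines. -/
def tL (a b : K) : Ln (Option (K × K)) (K × K) → Ln (Option (K × K)) (K × K)
  | .inf => .inf
  | .aff none i => .aff none (i.1, i.2 + a * i.1)
  | .aff (some c) i => .aff (tI τ a b (some c)) (i.1 + a * i.2, i.2)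

theorem tP_tP (hτ : ∀ x, τ (τ x) = x ^ 2) (h2 : (2 : K) = 0) (a b : K)
    (m : Pt (Option (K × K)) ((K × K) × (K × K))) :
    tP τ a (b + τ a * a) (tP τ a b m) = m := by
  rcases m with ⟨⟨v0, v3⟩, ⟨v1, v2⟩⟩ | c
  · simp only [tP, tV, zf, map_add, map_mul, hτ]
    congr 1
    refine Prod.ext (Prod.ext ?_ ?_) (Prod.ext ?_ ?_)
    · simp only
      grind
    · simp only
      grind
    · rfl
    · simp only
      grind
  · rcases c with _ | ⟨x, y⟩
    · rfl
    · simp only [tP, tI]
      congr 2
      refine Prod.ext ?_ ?_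
      · simp only
        grind
      · simp only
        grind

/-- Points: the permutation. -/
def tE (hτ : ∀ x, τ (τ x) = x ^ 2) (h2 : (2 : K) = 0) (a b : K) :
    Equiv.Perm (Pt (Option (K × K)) ((K × K) × (K × K))) where
  toFun := tP τ a b
  invFun := tP τ a (b + τ a * a)
  left_inv := tP_tP τ hτ h2 a b
  right_inv := by
    intro m
    have := tP_tP τ hτ h2 a (b + τ a * a) m
    have e : b + τ a * a + τ a * a = b := by linear_combination (τ a * a) * h2
    rwa [e] at this

theorem tL_inc (hτ : ∀ x, τ (τ x) = x ^ 2) (h2 : (2 : K) = 0) (a b : K)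
    (p : Ln (Option (K × K)) (K × K)) (m : Pt (Option (K × K)) ((K × K) × (K × K)))
    (h : inc (phi τ) p m) : inc (phi τ) (tL τ a b p) (tP τ a b m) := by
  rcases p with _ | ⟨c, i⟩
  · rcases m with v | d
    · exact h.elim
    · trivial
  · rcases m with ⟨⟨v0, v3⟩, ⟨v1, v2⟩⟩ | d
    · rcases c with _ | ⟨x, y⟩
      · simp only [inc, phi] at h
        simp only [tL, tP, inc, phi, tV, ← h]
      · simp only [inc, phi, Mf] at h
        simp only [tL, tP, inc, phi, tV, tI, Mf, zf, ← h, map_add, map_mul, hτ]
        refine Prod.ext ?_ ?_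
        · simp only [Prod.fst_add, Prod.snd_add]
          grind
        · simp only [Prod.snd_add]
          grind
    · have h' : c = d := h
      subst h'
      rcases c with _ | ⟨x, y⟩ <;> rfl

/-! ### The involution -/

open Classical in
/-- The involution on slopes. -/
noncomputable def wI : Option (K × K) → Option (K × K)
  | none => some (0, 0)
  | some c => if c = (0, 0) then none else some (c.2 / zf τ c.1 c.2, c.1 / zf τ c.1 c.2)

/-- The involution on points. -/
noncomputable def wP : Pt (Option (K × K)) ((K × K) × (K × K)) →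
    Pt (Option (K × K)) ((K × K) × (K × K))
  | .aff v => .aff (v.2, v.1)
  | .inf c => .inf (wI τ c)

open Classical in
/-- The involution on lines. -/
noncomputable def wL : Ln (Option (K × K)) (K × K) → Ln (Option (K × K)) (K × K)
  | .inf => .inf
  | .aff none i => .aff (some (0, 0)) i
  | .aff (some c) i => if c = (0, 0) then .aff none i else
      .aff (some (c.2 / zf τ c.1 c.2, c.1 / zf τ c.1 c.2))
        (Mf τ (c.2 / zf τ c.1 c.2, c.1 / zf τ c.1 c.2) i)

theorem zf_inv (hτ : ∀ x, τ (τ x) = x ^ 2) (h2 : (2 : K) = 0) (x y : K) (hz : zf τ x y ≠ 0) :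
    zf τ (y / zf τ x y) (x / zf τ x y) = 1 / zf τ x y := by
  have hz' : τ (zf τ x y) ≠ 0 := by simpa using hz
  have e : τ (zf τ x y) = τ x * τ y + x ^ 2 * (τ x) ^ 2 + y ^ 2 := by
    simp only [zf, map_add, map_mul, map_pow, hτ]
  have key : x * y * τ (zf τ x y) + τ y * y ^ 2 + τ x * (zf τ x y) ^ 2
      = zf τ x y * τ (zf τ x y) := by
    rw [e]
    simp only [zf]
    grind
  have e2 : zf τ (y / zf τ x y) (x / zf τ x y) * (zf τ x y ^ 2 * τ (zf τ x y))
      = x * y * τ (zf τ x y) + τ y * y ^ 2 + τ x * (zf τ x y) ^ 2 := by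
    set z := zf τ x y with hzdef
    have : zf τ (y / z) (x / z) = (y / z) * (x / z) + τ y / τ z * (y / z) ^ 2 + τ x / τ z := by
      simp only [zf, map_div₀]
    rw [this]
    field_simp
  rw [key] at e2
  rw [eq_div_iff hz]
  have h5 : zf τ x y * τ (zf τ x y) ≠ 0 := mul_ne_zero hz hz'
  apply mul_right_cancel₀ h5
  linear_combination e2

theorem wI_wI (hτ : ∀ x, τ (τ x) = x ^ 2) (h2 : (2 : K) = 0) (c : Option (K × K)) :
    wI τ (wI τ c) = c := by
  classical
  rcases c with _ | ⟨x, y⟩
  · simp [wI]
  · by_cases hc : (x, y) = ((0 : K), (0 : K))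
    · simp [wI, hc]
    · have hz : zf τ x y ≠ 0 := fun h => hc (by
        obtain ⟨h1, h3⟩ := z_ne τ hτ h2 x y h
        rw [h1, h3])
      have hc' : (y / zf τ x y, x / zf τ x y) ≠ ((0 : K), (0 : K)) := by
        intro h
        apply hc
        simp only [Prod.mk.injEq, div_eq_zero_iff, hz, or_false] at h
        rw [h.1, h.2]
      simp only [wI, if_neg hc, if_neg hc']
      rw [zf_inv τ hτ h2 x y hz]
      congr 2
      · field_simp
      · field_simp

/-- The involution as a permutation of points. -/
noncomputable def wE (hτ : ∀ x, τ (τ x) = x ^ 2) (h2 : (2 : K) = 0) :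
    Equiv.Perm (Pt (Option (K × K)) ((K × K) × (K × K))) where
  toFun := wP τ
  invFun := wP τ
  left_inv := by
    intro m
    rcases m with v | c
    · rfl
    · simp only [wP, wI_wI τ hτ h2]
  right_inv := by
    intro m
    rcases m with v | c
    · rfl
    · simp only [wP, wI_wI τ hτ h2]

theorem Mf_zero (q : K × K) : Mf τ (0, 0) q = 0 := by
  unfold Mf
  simp

/-- The spread matrices at a slope and at its image under the involution are inverse. -/
theorem Mf_w (hτ : ∀ x, τ (τ x) = x ^ 2) (h2 : (2 : K) = 0) (x y : K) (hz : zf τ x y ≠ 0)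
    (q : K × K) : Mf τ (y / zf τ x y, x / zf τ x y) (Mf τ (x, y) q) = q := by
  obtain ⟨q1, q2⟩ := q
  have hz' : τ (zf τ x y) ≠ 0 := by simpa using hz
  have e : τ (zf τ x y) = τ x * τ y + x ^ 2 * (τ x) ^ 2 + y ^ 2 := by
    simp only [zf, map_add, map_mul, map_pow, hτ]
  have f : x / zf τ x y + τ y / τ (zf τ x y) * (y / zf τ x y) = (y + τ x * x) / τ (zf τ x y) := by
    have : x * τ (zf τ x y) + τ y * y = zf τ x y * (y + τ x * x) := by
      rw [e]
      simp only [zf]
      grind
    field_simp
    linear_combination this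
  unfold Mf
  simp only [map_div₀]
  rw [f]
  refine Prod.ext ?_ ?_
  · simp only
    field_simp
    rw [e]
    grind
  · simp only
    field_simp
    rw [e]
    grind

theorem wL_inc (hτ : ∀ x, τ (τ x) = x ^ 2) (h2 : (2 : K) = 0)
    (p : Ln (Option (K × K)) (K × K)) (m : Pt (Option (K × K)) ((K × K) × (K × K)))
    (h : inc (phi τ) p m) : inc (phi τ) (wL τ p) (wP τ m) := by
  classical
  rcases p with _ | ⟨c, i⟩
  · rcases m with v | d
    · exact h.elim
    · trivial
  · rcases m with v | d
    · rcases c with _ | ⟨x, y⟩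
      · simp only [inc, phi] at h
        simp only [wL, wP, inc, phi, Mf_zero, h, add_zero]
      · simp only [inc, phi] at h
        by_cases hc : (x, y) = ((0 : K), (0 : K))
        · rw [hc, Mf_zero, add_zero] at h
          simp only [wL, wP, hc, if_true, inc, phi, h]
        · have hz : zf τ x y ≠ 0 := fun h => hc (by
            obtain ⟨h1, h3⟩ := z_ne τ hτ h2 x y h
            rw [h1, h3])
          simp only [wL, wP, if_neg hc, inc, phi, ← h, Mf_add, Mf_w τ hτ h2 x y hz]
          abel
    · have h' : c = d := h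
      subst h'
      rcases c with _ | c
      · rfl
      · by_cases hc : c = ((0 : K), (0 : K))
        · simp only [wL, wP, wI, hc, if_true, inc]
        · simp only [wL, wP, wI, if_neg hc, inc]

end field

end Pool.Agent.Y438
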