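import Mathlib
import Pool.Agent.Y438.Tits3

set_option autoImplicit false

/-!
# The dual Lüneburg plane: two-transitivity on the points of a line, and failure of transitivity
of the elations
-/

namespace Pool.Agent.Y438

section field

variable {K : Type} [Field K] (τ : K →+* K)

/-- All collineations of the dual Lüneburg plane fixing the line (the origin). -/
def collGroup : Subgroup (Equiv.Perm (Ln (Option (K × K)) (K × K)) ×
    Equiv.Perm (Pt (Option (K × K)) ((K × K) × (K × K)))) where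
  carrier := {g | (∀ p m, inc (phi τ) p m ↔ inc (phi τ) (g.1 p) (g.2 m)) ∧
    g.2 (.aff 0) = .aff 0}
  one_mem' := ⟨fun _ _ => Iff.rfl, rfl⟩
  mul_mem' := by
    intro g h hg hh
    refine ⟨fun p m => ?_, ?_⟩
    · exact (hh.1 p m).trans (hg.1 (h.1 p) (h.2 m))
    · show g.2 (h.2 _) = _
      rw [hh.2, hg.2]
  inv_mem' := by
    intro g hg
    refine ⟨fun p m => ?_, ?_⟩
    · have := hg.1 (g⁻¹.1 p) (g⁻¹.2 m)
      have e1 : g.1 (g⁻¹.1 p) = p := Equiv.apply_symm_apply g.1 p
      have e2 : g.2 (g⁻¹.2 m) = m := Equiv.apply_symm_apply g.2 m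
      rw [e1, e2] at this
      exact this.symm
    · show g.2.symm _ = _
      rw [Equiv.symm_apply_eq]
      exact hg.2.symm

theorem coll_t [Finite K] (hτ : ∀ x, τ (τ x) = x ^ 2) (h2 : (2 : K) = 0) (a b : K) :
    ∃ g ∈ collGroup τ, ∀ p, g.1 p = tL τ a b p := by
  obtain ⟨g, hg1, hg2, hg3⟩ := exists_coll (phi τ) (phi_h1 τ hτ h2) (phi_h2 τ hτ h2)
    none (some (0, 0)) (by simp) (tE τ hτ h2 a b) (tL τ a b) (tL τ a (b + τ a * a))
    (fun p m h => tL_inc τ hτ h2 a b p m h) (fun p m h => tL_inc τ hτ h2 _ _ p m h)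
  refine ⟨g, ⟨hg1, ?_⟩, hg2⟩
  rw [hg3]
  show tP τ a b (.aff 0) = .aff 0
  simp [tP, tV]

theorem coll_w [Finite K] (hτ : ∀ x, τ (τ x) = x ^ 2) (h2 : (2 : K) = 0) :
    ∃ g ∈ collGroup τ, ∀ p, g.1 p = wL τ p := by
  obtain ⟨g, hg1, hg2, hg3⟩ := exists_coll (phi τ) (phi_h1 τ hτ h2) (phi_h2 τ hτ h2)
    none (some (0, 0)) (by simp) (wE τ hτ h2) (wL τ) (wL τ)
    (fun p m h => wL_inc τ hτ h2 p m h) (fun p m h => wL_inc τ hτ h2 p m h)
  refine ⟨g, ⟨hg1, ?_⟩, hg2⟩
  rw [hg3]
  rfl

/-- Every ordered pair of distinct components is the image of a fixed one. -/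
theorem base_pair [Finite K] (hτ : ∀ x, τ (τ x) = x ^ 2) (h2 : (2 : K) = 0)
    (c d : Option (K × K)) (h : c ≠ d) :
    ∃ g ∈ collGroup τ, g.1 (.aff none 0) = .aff c 0 ∧ g.1 (.aff (some (0, 0)) 0) = .aff d 0 := by
  classical
  have ht0 : ∀ a b : K, tL τ a b (.aff none 0) = .aff none 0 := by
    intro a b
    simp only [tL, Prod.fst_zero, Prod.snd_zero, mul_zero, add_zero]
    rfl
  have ht1 : ∀ a b x y : K, tL τ a b (.aff (some (x, y)) 0) = .aff (tI τ a b (some (x, y))) 0 := by
    intro a b x y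
    simp only [tL, Prod.fst_zero, Prod.snd_zero, mul_zero, add_zero]
    rfl
  have ht2 : ∀ a b : K, tI τ a b (some (0, 0)) = some (a, b) := by
    intro a b
    simp [tI]
  rcases c with _ | ⟨a, b⟩
  · rcases d with _ | ⟨a, b⟩
    · exact absurd rfl h
    · obtain ⟨g, hg, hg'⟩ := coll_t τ hτ h2 a b
      refine ⟨g, hg, ?_, ?_⟩
      · rw [hg', ht0]
      · rw [hg', ht1, ht2]
  · -- d = T c of some d' ≠ (0,0)
    obtain ⟨d', hd', hd0⟩ : ∃ d', tI τ a b d' = d ∧ d' ≠ some (0, 0) := by
      rcases d with _ | ⟨x, y⟩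
      · exact ⟨none, rfl, by simp⟩
      · refine ⟨some (x + a, y + b + τ a * (x + a)), ?_, ?_⟩
        · simp only [tI]
          congr 1
          refine Prod.ext ?_ ?_
          · simp only
            grind
          · simp only
            grind
        · intro e
          simp only [Option.some.injEq, Prod.mk.injEq] at e
          obtain ⟨e1, e2⟩ := e
          rw [e1, mul_zero, add_zero] at e2
          apply h
          congr 2
          · linear_combination (-1 : K) * e1 + a * h2
          · linear_combination (-1 : K) * e2 + b * h2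
    -- d' = w d'' with d'' ≠ none
    obtain ⟨e1, e2, he⟩ : ∃ e1 e2 : K, wI τ (some (e1, e2)) = d' := by
      have hw := wI_wI τ hτ h2 d'
      rcases hwd : wI τ d' with _ | ⟨e1, e2⟩
      · exfalso
        rw [hwd] at hw
        exact hd0 (hw ▸ rfl)
      · exact ⟨e1, e2, by rw [← hwd]; exact hw⟩
    obtain ⟨g1, hg1, hg1'⟩ := coll_t τ hτ h2 e1 e2
    obtain ⟨g2, hg2, hg2'⟩ := coll_w τ hτ h2
    obtain ⟨g3, hg3, hg3'⟩ := coll_t τ hτ h2 a b
    refine ⟨g3 * (g2 * g1), (collGroup τ).mul_mem hg3 ((collGroup τ).mul_mem hg2 hg1), ?_, ?_⟩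
    · show g3.1 (g2.1 (g1.1 _)) = _
      rw [hg1', ht0, hg2']
      show g3.1 (.aff (some (0, 0)) 0) = _
      rw [hg3', ht1, ht2]
    · show g3.1 (g2.1 (g1.1 _)) = _
      rw [hg1', ht1, ht2, hg2']
      have hwL : wL τ (.aff (some (e1, e2)) 0) = .aff (wI τ (some (e1, e2))) 0 := by
        by_cases hc : (e1, e2) = ((0 : K), (0 : K))
        · simp only [wL, wI, hc, if_true]
        · simp only [wL, wI, if_neg hc]
          congr 1
          unfold Mf
          simp
      rw [hwL, he, hg3']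
      rcases d' with _ | ⟨x, y⟩
      · rw [ht0]
        rw [← hd']
        rfl
      · rw [ht1, hd']

/-- Failure of transitivity of the elations. -/
theorem no_elation [Finite K] (hτ : ∀ x, τ (τ x) = x ^ 2) (h2 : (2 : K) = 0)
    (u : K) (hu0 : u ≠ 0) (hu1 : u ≠ 1)
    (σ : Equiv.Perm (Ln (Option (K × K)) (K × K)) ×
      Equiv.Perm (Pt (Option (K × K)) ((K × K) × (K × K))))
    (hσ : ∀ p m, inc (phi τ) p m ↔ inc (phi τ) (σ.1 p) (σ.2 m))
    (h0 : ∀ p, inc (phi τ) p (.aff 0) → σ.1 p = p)
    (hA : ∀ m, inc (phi τ) (.aff none 0) m → σ.2 m = m)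
    (hinf : σ.1 .inf = .aff none (1, 0)) : False := by
  -- the images of the points at infinity
  have hcomp : ∀ c, σ.1 (.aff c 0) = .aff c 0 := by
    intro c
    apply h0
    rcases c with _ | c
    · rfl
    · show (0 : K × K) + Mf τ c 0 = 0
      unfold Mf
      simp
  -- two points on two different lines are equal
  have huniq : ∀ (p q : Ln (Option (K × K)) (K × K)) (m n : Pt (Option (K × K)) ((K × K) × (K × K))),
      p ≠ q → inc (phi τ) p m → inc (phi τ) q m → inc (phi τ) p n → inc (phi τ) q n → m = n := by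
    intro p q m n hpq a b c d
    letI : Membership (Ln (Option (K × K)) (K × K)) (Pt (Option (K × K)) ((K × K) × (K × K))) :=
      ⟨fun m p => inc (phi τ) p m⟩
    letI := luneburg τ hτ h2
    exact (Configuration.Nondegenerate.eq_or_eq (P := Ln (Option (K × K)) (K × K))
      (L := Pt (Option (K × K)) ((K × K) × (K × K))) a b c d).resolve_left hpq
  -- image of the point at infinity of the component (0, y)
  have hpt : ∀ y : K, σ.2 (.inf (some (0, y))) = .aff ((τ y, y), (1, 0)) := by
    intro y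
    apply huniq (.aff (some (0, y)) 0) (.aff none (1, 0))
    · intro h
      simp at h
    · rw [← hcomp (some (0, y)), ← hσ]
      rfl
    · rw [← hinf, ← hσ]
      trivial
    · show (τ y, y) + Mf τ (0, y) (1, 0) = 0
      unfold Mf
      simp only [map_zero, mul_one, mul_zero, add_zero, Prod.mk_add_mk]
      refine Prod.ext ?_ ?_
      · show τ y + τ y = 0
        grind
      · show y + y = 0
        grind
    · rfl
  -- the image of the line through `(w,0,0,0)` and the infinite point of `(0, w)`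
  have hline : ∀ w x y : K, τ y = τ w + w → y + τ x * x = w →
      σ.1 (.aff (some (0, w)) (w, 0)) = .aff (some (x, y)) (w, 0) := by
    intro w x y h3 h4
    -- both lines pass through `(w,0,0,0)` and the image of the infinite point
    have i1 : inc (phi τ) (σ.1 (.aff (some (0, w)) (w, 0))) (.aff ((w, 0), (0, 0))) := by
      have hfix : σ.2 (.aff ((w, 0), (0, 0))) = .aff ((w, 0), (0, 0)) := by
        apply hA
        rfl
      rw [← hfix, ← hσ]
      show (w, (0 : K)) + Mf τ (0, w) (0, 0) = (w, 0)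
      unfold Mf
      simp
    have i2 : inc (phi τ) (σ.1 (.aff (some (0, w)) (w, 0))) (.aff ((τ w, w), (1, 0))) := by
      rw [← hpt w, ← hσ]
      rfl
    by_contra hne
    have := huniq _ _ (.aff ((w, 0), (0, 0))) (.aff ((τ w, w), (1, 0))) hne i1 (by
      show (w, (0 : K)) + Mf τ (x, y) (0, 0) = (w, 0)
      unfold Mf
      simp) i2 (by
      show (τ w, w) + Mf τ (x, y) (1, 0) = (w, 0)
      unfold Mf
      simp only [mul_one, mul_zero, add_zero, Prod.mk_add_mk, h3, h4]
      refine Prod.ext ?_ ?_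
      · show τ w + (τ w + w) = w
        grind
      · show w + w = 0
        grind)
    simp at this
  -- the point `p = (0,0,1,0)`
  have hp : ∀ w : K, inc (phi τ) (.aff (some (0, w)) (w, 0)) (.aff ((0, 0), (0, 1))) := by
    intro w
    show ((0 : K), (0 : K)) + Mf τ (0, w) (0, 1) = (w, 0)
    unfold Mf
    simp
  have hpD : inc (phi τ) (.aff (some (0, 0)) 0) (.aff ((0, 0), (0, 1))) := by
    show ((0 : K), (0 : K)) + Mf τ (0, 0) (0, 1) = 0
    unfold Mf
    simp
  have himg : σ.2 (.aff ((0, 0), (0, 1))) = .aff ((0, 0), (1, 1)) := by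
    apply huniq (.aff (some (0, 0)) 0) (.aff (some (1, 0)) (1, 0))
    · intro h
      simp at h
    · rw [← hcomp (some (0, 0)), ← hσ]
      exact hpD
    · rw [← hline 1 1 0 (by simp only [map_zero, map_one]; grind) (by simp), ← hσ]
      exact hp 1
    · show ((0 : K), (0 : K)) + Mf τ (0, 0) (1, 1) = 0
      unfold Mf
      simp
    · show ((0 : K), (0 : K)) + Mf τ (1, 0) (1, 1) = (1, 0)
      unfold Mf
      simp only [map_zero, map_one, mul_one, zero_add, Prod.mk_add_mk, one_mul]
      refine Prod.ext ?_ ?_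
      · rfl
      · show (1 : K) + 1 = 0
        grind
  -- the second computation
  have hline2 := hline (τ u * u ^ 2) u (τ u * u ^ 2 + τ u * u)
    (by simp only [map_add, map_mul, map_pow, hτ]; grind)
    (by grind)
  have h5 : inc (phi τ) (.aff (some (u, τ u * u ^ 2 + τ u * u)) (τ u * u ^ 2, 0))
      (.aff ((0, 0), (1, 1))) := by
    rw [← himg, ← hline2, ← hσ]
    exact hp _
  have h6 : ((0 : K), (0 : K)) + Mf τ (u, τ u * u ^ 2 + τ u * u) (1, 1) = (τ u * u ^ 2, 0) := h5
  unfold Mf at h6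
  simp only [mul_one, Prod.mk_add_mk, zero_add, Prod.mk.injEq] at h6
  obtain ⟨h7, h8⟩ := h6
  have hτu : τ u ≠ 0 := by simpa using hu0
  have h9 : τ u * (u ^ 2 + 1) = 0 := by
    linear_combination h8 + (- (τ u * u)) * h2
  have h10 : u ^ 2 + 1 = 0 := (mul_eq_zero.1 h9).resolve_left hτu
  have h11 : (u - 1) ^ 2 = 0 := by
    linear_combination h10 - u * h2
  have h12 : u - 1 = 0 := by simpa using h11
  exact hu1 (by linear_combination h12)

end field

end Pool.Agent.Y438
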